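import Pool.Agent.W5h32.KS.L

set_option autoImplicit false

/-!
# Moments of the zeta function on the critical line with weights which depend on finitely many primes

Let `q ≥ 2` be an integer and `S` a finite set of primes, `Z(t) = ∏_{p ∈ S} (1 - p^{-1/2-it})⁻¹`. For
every weight `w ≥ 0` which is a uniform limit of trigonometric polynomials without frequencies
`log (a / b)` in which other primes occur, for all large `T`, all `δ T ≤ H ≤ T` and all real `r`,

  `∫_T^{T+H} |ζ(1/2+it)|^q w(t+r) dt ≥ c (M(r) / M₀) H (log T)^{q²/4}`,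

where `M(r)` is the mean value of `w(t+r) |Z(t)|^q` and `M₀` that of `|Z(t)|^q`; `c > 0` depends on `q`
only. So the mass of the `q`-th moment is distributed over the phases `p^{it}`, `p ∈ S`, as it should
be, up to a factor which is independent of `S` and `w`.

Proof. Write `ζ = Z ζ_S`. A Dirichlet polynomial `A` approximates the square root of `ζ_S`; by
Young's inequality `2^{q-1} |ζ_S|^q ≥ |ζ_S| |A|^{2q-2} - |A|^{2q}/2`, and `w |Z|^q` is, up to `ε`, a
trigonometric polynomial `V` with allowed frequencies. In the mean values of `V ζ_S A^{q-2} conj(A)^q`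
and `V |A|^{2q}` only the frequency zero matters, as the coefficients of `A` live on integers prime
to `S`. The diagonal sum is at least `c (log T)^{q²/4} / ∏_{p ∈ S} l_p`, where `∏ l_p` is the mean value of
`|Z|^q`. The error `ε |ζ_S| |A|^{2q-2}` is controlled by a twisted second moment of `ζ`
(starting files `H262R4/TM`, `Y412/OM`, `W184/NZ`) with a constant which does not depend on `S`.
-/

namespace Pool.Agent.Results.MP_6a632e_nt.AlmostPeriodicWeights

open Filter Topology MeasureTheory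

/-- The frequency `x` is allowed for `S`: if `x` is the logarithm of a rational number, then only
primes of `S` occur in this number. -/
def Allowed (S : Finset ℕ) (x : ℝ) : Prop :=
  ∀ a b : ℕ, 1 ≤ a → 1 ≤ b → a.Coprime b → x = Real.log a - Real.log b →
    ∀ p : ℕ, p.Prime → p ∣ a * b → p ∈ S

/-- Uniform limits of trigonometric polynomials with frequencies allowed for `S`. -/
def AlmostPeriodic (S : Finset ℕ) (w : ℝ → ℝ) : Prop :=
  ∀ ε : ℝ, 0 < ε → ∃ (F : Finset ℝ) (c : ℝ → ℂ), (∀ x ∈ F, Allowed S x) ∧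
    ∀ t : ℝ, ‖(w t : ℂ) - ∑ x ∈ F, c x * Complex.exp (((x * t : ℝ) : ℂ) * Complex.I)‖ ≤ ε

/-- The Euler factor of the primes of `S` at `1/2 + it`. -/
noncomputable def localZeta (S : Finset ℕ) (t : ℝ) : ℂ :=
  ∏ p ∈ S, (1 - (p : ℂ) ^ (-(1 / 2 + t * Complex.I)))⁻¹

/-- The mean value of `f` exists and is `m`. -/
def HasMean (f : ℝ → ℝ) (m : ℝ) : Prop :=
  Tendsto (fun X : ℝ => (∫ t in (0:ℝ)..X, f t) / X) atTop (𝓝 m)

theorem result (q : ℕ) (hq : 2 ≤ q) : ∃ c : ℝ, 0 < c ∧ ∀ S : Finset ℕ, (∀ p ∈ S, p.Prime) →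
    ∃ M₀ : ℝ, 0 < M₀ ∧ HasMean (fun t => ‖localZeta S t‖ ^ q) M₀ ∧
    ∀ w : ℝ → ℝ, (∀ t, 0 ≤ w t) → AlmostPeriodic S w →
    ∃ M : ℝ → ℝ, (∀ r, HasMean (fun t => w (t + r) * ‖localZeta S t‖ ^ q) (M r)) ∧
    ∀ δ : ℝ, 0 < δ → ∀ᶠ T : ℝ in atTop, ∀ r H : ℝ, δ * T ≤ H → H ≤ T →
      c * (M r / M₀) * H * Real.log T ^ ((q:ℝ) ^ 2 / 4) ≤
        ∫ t in Set.Icc T (T + H), ‖riemannZeta (1 / 2 + t * Complex.I)‖ ^ q * w (t + r) :=
  Pool.Agent.W5h32.KS.main q hq

end Pool.Agent.Results.MP_6a632e_nt.AlmostPeriodicWeights
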