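import Pool.Agent.W5h76.KS.E

set_option autoImplicit false

/-!
# The moments of zeta on the critical level, off arbitrary small sets, in windows `H ≥ T ^ (1/2 + ε)`

Let `q = a / b ≥ 2` be rational, `ε, δ > 0` and `B > q ^ 2 / 4`. The lower bound of the conjectured order
`H (log T) ^ (q ^ 2 / 4)` for the moment of order `q` over `[T, T + H]`, `T ^ (1/2 + ε) ≤ H ≤ T`, holds for the
points `t` where `|ζ(1/2 + it)|` lies between `(log T) ^ (q/2 - δ)` and `(log T) ^ (q/2 + δ)`, after deleting ANY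
measurable set `D` of measure at most `H (log T) ^ (-B)`, uniformly in `D`. In particular the set of these `t` has
measure larger than `H (log T) ^ (-B)`.
-/

namespace Pool.Agent.Results.MP_6a632e_nt.CriticalLevel

open Filter MeasureTheory

/-- The `t ∈ [T, T + H]` with `(log T) ^ (x - δ) ≤ |ζ(1/2 + it)| ≤ (log T) ^ (x + δ)`. -/
def Level (T H x δ : ℝ) : Set ℝ :=
  {t : ℝ | t ∈ Set.Icc T (T + H) ∧ Real.log T ^ (x - δ) ≤ ‖riemannZeta (1 / 2 + t * Complex.I)‖ ∧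
    ‖riemannZeta (1 / 2 + t * Complex.I)‖ ≤ Real.log T ^ (x + δ)}

theorem result (a b : ℕ) (hb : 1 ≤ b) (hab : 2 * b ≤ a) (ε δ B : ℝ) (hε : 0 < ε) (hδ : 0 < δ)
    (hB : ((a:ℝ) / b) ^ 2 / 4 < B) :
    ∃ c : ℝ, 0 < c ∧ ∀ᶠ T : ℝ in atTop, ∀ H : ℝ, T ^ (1 / 2 + ε) ≤ H → H ≤ T →
      (∀ D : Set ℝ, MeasurableSet D →
        volume (D ∩ Set.Icc T (T + H)) ≤ ENNReal.ofReal (H * Real.log T ^ (-B)) →
        c * H * Real.log T ^ (((a:ℝ) / b) ^ 2 / 4) ≤
          ∫ t in Level T H ((a:ℝ) / b / 2) δ \ D, ‖riemannZeta (1 / 2 + t * Complex.I)‖ ^ ((a:ℝ) / b)) ∧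
      ENNReal.ofReal (H * Real.log T ^ (-B)) < volume (Level T H ((a:ℝ) / b / 2) δ) := by
  obtain ⟨c, hc, h⟩ := Pool.Agent.W5h76.KS.main_rat a b hb hab ε δ B hε hδ hB
  refine ⟨c, hc, ?_⟩
  filter_upwards [h, eventually_gt_atTop 1] with T hT hT1 H hH1 hH2
  have key : ∀ D : Set ℝ, MeasurableSet D →
        volume (D ∩ Set.Icc T (T + H)) ≤ ENNReal.ofReal (H * Real.log T ^ (-B)) →
        c * H * Real.log T ^ (((a:ℝ) / b) ^ 2 / 4) ≤
          ∫ t in Level T H ((a:ℝ) / b / 2) δ \ D, ‖riemannZeta (1 / 2 + t * Complex.I)‖ ^ ((a:ℝ) / b) := by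
    intro D hD hm
    refine (hT H hH1 hH2 D hD hm).trans (le_of_eq ?_)
    congr 2
    ext t
    constructor
    · rintro ⟨h1, h2, h3⟩
      exact ⟨⟨h1, h3⟩, h2⟩
    · rintro ⟨⟨h1, h3⟩, h2⟩
      exact ⟨h1, h2, h3⟩
  refine ⟨key, ?_⟩
  by_contra hlt
  rw [not_lt] at hlt
  have hLm : MeasurableSet (Level T H ((a:ℝ) / b / 2) δ) :=
    measurableSet_Icc.inter (Pool.Agent.W5h76.KS.Lev_meas _ _)
  have h1 := key _ hLm ((measure_mono Set.inter_subset_left).trans hlt)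
  rw [Set.sdiff_self, setIntegral_empty] at h1
  have hH0 : 0 < H := lt_of_lt_of_le (Real.rpow_pos_of_pos (by linarith) _) hH1
  have h2 : 0 < c * H * Real.log T ^ (((a:ℝ) / b) ^ 2 / 4) := by
    have := Real.rpow_pos_of_pos (Real.log_pos hT1) (((a:ℝ) / b) ^ 2 / 4)
    positivity
  linarith

end Pool.Agent.Results.MP_6a632e_nt.CriticalLevel
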