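import Pool.Agent.W5h34.SG.G

set_option autoImplicit false

/-!
Lower bounds of the conjectured order for the integer moments of the zeta function on the critical
line, restricted to the points `t` at which the completed zeta function (equivalently Hardy's
function `Z(t)`) has a prescribed sign and at which the phase
`θ(t) = (t/2) log (t/2π) - t/2` (the Riemann-Siegel theta function up to `-π/8 + O(1/t)`) lies within
`δ` of an arbitrary arithmetic progression `φ + P ℤ` with any difference `P > 0`. The bound holds in
all ranges `[T, T + H]` with `T ^ (1/4 + ε) ≤ H ≤ T`, uniformly in the residue `φ` and the sign `s`.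
For `P = 2π` the set is the half of a narrow sector of the values of zeta on which `Z` has the sign
`s`; for `P = kπ` the points are those close to every `k`-th Gram point of any given residue class.
-/

namespace Pool.Agent.Results.MP_6a632e_nt.SignedProgressions

open MeasureTheory Filter

theorem result (q : ℕ) (hq : 2 ≤ q) (ε P δ : ℝ) (hε : 0 < ε) (hP : 0 < P) (hδ : 0 < δ) :
    ∃ c : ℝ, 0 < c ∧ ∀ᶠ T : ℝ in atTop, ∀ H : ℝ, T ^ (1 / 4 + ε) ≤ H → H ≤ T →
      ∀ φ s : ℝ, (s = 1 ∨ s = -1) →
      c * H * Real.log T ^ ((q:ℝ) ^ 2 / 4) ≤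
        ∫ t in {t : ℝ | t ∈ Set.Icc T (T + H) ∧
            0 < s * (completedRiemannZeta (1 / 2 + (t : ℂ) * Complex.I)).re ∧
            ∃ n : ℤ, |t / 2 * Real.log (t / (2 * Real.pi)) - t / 2 - φ - n * P| < δ},
          ‖riemannZeta (1 / 2 + (t : ℂ) * Complex.I)‖ ^ q :=
  Pool.Agent.W5h34.SG.main q hq ε P δ hε hP hδ

end Pool.Agent.Results.MP_6a632e_nt.SignedProgressions
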