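import Pool.Agent.W5h80.AP.Z

/-!
# Moments of the zeta function over vertical arithmetic progressions

Lower bounds of the conjectured order for all rational moments of exponent `q = a / b ≥ 2` of the values of the zeta
function at the points of an arbitrary vertical arithmetic progression `1 / 2 + i (α k + β)`, in all windows
`[T, T + H]`, `T ^ (1 / 2 + ε) ≤ H ≤ T`, uniformly in the shift `β` and in the spacing `α ≤ A`.

The divisor functions of real order, their mean values and the polynomials standing for the powers of the zeta function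
are taken from the library of the team (`Pool.Agent.R311.BS`, `Pool.Agent.H306R2`).
-/

set_option autoImplicit false

namespace Pool.Agent.Results.MP_6a632e_nt.VerticalProgressionMoments

open Finset

/-- Let `a ≥ 2 b ≥ 2` be integers and let `A > 0` and `ε > 0` be real. There is a constant `c > 0` such that for all
sufficiently large `T`, all `H` with `T ^ (1 / 2 + ε) ≤ H ≤ T`, ALL spacings `0 < α ≤ A` and ALL shifts `β`, the moment of
exponent `a / b` of the zeta function over the points `1 / 2 + i (α k + β)` (`k ∈ ℤ`) with `T ≤ α k + β ≤ T + H` is at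
least `c (H / α) (log T) ^ ((a / b) ^ 2 / 4)`. -/
theorem result (a b : ℕ) (hb : 1 ≤ b) (hab : 2 * b ≤ a) (A ε : ℝ) (hA : 0 < A) (hε : 0 < ε) :
    ∃ c : ℝ, 0 < c ∧ ∃ T₀ : ℝ, ∀ T : ℝ, T₀ ≤ T → ∀ H : ℝ, T ^ (1 / 2 + ε) ≤ H → H ≤ T →
      ∀ α : ℝ, 0 < α → α ≤ A → ∀ β : ℝ,
      c * (H / α) * Real.log T ^ (((a:ℝ) / b) ^ 2 / 4) ≤
        ∑ k ∈ Icc ⌈(T - β) / α⌉ ⌊(T + H - β) / α⌋,
          ‖riemannZeta (1 / 2 + ((α * k + β : ℝ) : ℂ) * Complex.I)‖ ^ ((a:ℝ) / b) := by
  obtain ⟨c, hc, h⟩ := Pool.Agent.W5h80.AP.main a b hb hab hA hε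
  obtain ⟨T₀, hT₀⟩ := Filter.eventually_atTop.mp h
  refine ⟨c, hc, T₀, fun T hT H h1 h2 α hα hαA β => ?_⟩
  have h3 := hT₀ T hT H h1 h2 α hα hαA β
  have h4 : c * (H / α) * Real.log T ^ (((a:ℝ) / b) ^ 2 / 4) =
      (c * H * Real.log T ^ (((a:ℝ) / b) ^ 2 / 4)) / α := by ring
  rw [h4, div_le_iff₀ hα, mul_comm _ α]
  exact h3

end Pool.Agent.Results.MP_6a632e_nt.VerticalProgressionMoments
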